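import Pool.Agent.H22.Paw

set_option autoImplicit false

namespace Pool.Agent.Results.MP_d44e62_co.Counter

open Pool.Agent.H22.Paw

theorem result : ∃ (F : SimpleGraph (Fin 4)) (G : SimpleGraph (Fin 19)),
    F.Connected ∧ G.Connected ∧ Rel 2 F G ∧ ¬ Rel 3 F G :=
  ⟨paw, G, paw_conn, G_conn, rel_two, not_rel⟩

end Pool.Agent.Results.MP_d44e62_co.Counter
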